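import Mathlib
import Pool.Agent.H770R2.Spec.Props

/-!
# Automatic continuity of spectrally bounded surjections onto C*-algebras

Three circles theorem (Hadamard) applied to high powers, following Aupetit and Ransford.
-/

open scoped ComplexOrder InnerProductSpace
open Filter Topology

noncomputable section

namespace H770R2.Spec

namespace Cont

section banach
variable {B : Type} [NormedRing B] [NormedAlgebra ℂ B]

/-- Three circles for `(P + z Q) ^ n`. -/
theorem three_circles (P Q : B) (n : ℕ) {R a b : ℝ} (hR : 1 < R)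
    (ha : ∀ z : ℂ, ‖z‖ = R⁻¹ → ‖(P + z • Q) ^ n‖ ≤ a)
    (hb : ∀ z : ℂ, ‖z‖ = R → ‖(P + z • Q) ^ n‖ ≤ b) :
    ‖(P + Q) ^ n‖ ≤ a ^ ((1 : ℝ) / 2) * b ^ ((1 : ℝ) / 2) := by
  have hR0 : 0 < R := by linarith
  have hL : 0 < Real.log R := Real.log_pos hR
  set L := Real.log R with hLdef
  have hexpL : Real.exp L = R := Real.exp_log hR0
  set g : ℂ → B := fun z => (P + z • Q) ^ n with hg
  have hgc : Continuous g := by
    rw [hg]
    fun_prop
  have hgd : Differentiable ℂ g := by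
    have h1 : Differentiable ℂ (fun z : ℂ => P + z • Q) :=
      (differentiable_const P).add (differentiable_id.smul_const Q)
    exact h1.pow n
  have hfd : Differentiable ℂ (fun s : ℂ => g (Complex.exp s)) :=
    hgd.comp Complex.differentiable_exp
  have key := Complex.HadamardThreeLines.norm_le_interp_of_mem_verticalClosedStrip'
    (f := fun s : ℂ => g (Complex.exp s)) (z := 0) (a := a) (b := b) (l := -L) (u := L)
    (by linarith) ?_ hfd.diffContOnCl ?_ ?_ ?_
  · simp only [Complex.exp_zero, hg, one_smul, Complex.zero_re] at key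
    have e1 : (0 - -L) / (L - -L) = 1 / 2 := by
      have : L ≠ 0 := hL.ne'
      field_simp
      ring
    rw [e1] at key
    norm_num at key ⊢
    exact key
  · simp only [Complex.HadamardThreeLines.verticalClosedStrip, Set.mem_preimage, Complex.zero_re,
      Set.mem_Icc]
    constructor <;> linarith
  · -- boundedness
    have hK : IsCompact (Metric.closedBall (0 : ℂ) R) := isCompact_closedBall 0 R
    obtain ⟨C, hC⟩ := hK.bddAbove_image (f := fun z => ‖g z‖) hgc.norm.continuousOn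
    refine ⟨C, ?_⟩
    rintro _ ⟨s, hs, rfl⟩
    refine hC ⟨Complex.exp s, ?_, rfl⟩
    simp only [Complex.HadamardThreeLines.verticalClosedStrip, Set.mem_preimage,
      Set.mem_Icc] at hs
    rw [mem_closedBall_zero_iff, Complex.norm_exp]
    calc Real.exp s.re ≤ Real.exp L := Real.exp_le_exp.2 hs.2
      _ = R := hexpL
  · intro s hs
    have hs' : s.re = -L := hs
    refine ha _ ?_
    rw [Complex.norm_exp, hs', Real.exp_neg, hexpL]
  · intro s hs
    have hs' : s.re = L := hs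
    refine hb _ ?_
    rw [Complex.norm_exp, hs', hexpL]

/-- Gelfand's formula, upper bound for the powers. -/
theorem ev_lt [CompleteSpace B] (a : B) {c : ℝ} (h : spectralRadius ℂ a < ENNReal.ofReal c) :
    ∀ᶠ n : ℕ in atTop, ‖a ^ n‖ < c ^ n := by
  have hc : 0 < c := by
    by_contra hc
    rw [ENNReal.ofReal_of_nonpos (not_lt.1 hc)] at h
    exact absurd h (by simp)
  have h1 := (spectrum.pow_norm_pow_one_div_tendsto_nhds_spectralRadius a).eventually
    (gt_mem_nhds h)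
  filter_upwards [h1, eventually_ge_atTop 1] with n hn hn1
  have hn0 : (n : ℝ) ≠ 0 := by
    have : n ≠ 0 := by omega
    exact_mod_cast this
  have h2 : ‖a ^ n‖ ^ (1 / n : ℝ) < c := by
    rw [ENNReal.ofReal_lt_ofReal_iff hc] at hn
    exact hn
  have h3 : (‖a ^ n‖ ^ (1 / n : ℝ)) ^ (n : ℝ) < c ^ (n : ℝ) :=
    Real.rpow_lt_rpow (Real.rpow_nonneg (norm_nonneg _) _) h2 (by positivity)
  rw [← Real.rpow_mul (norm_nonneg _), one_div, inv_mul_cancel₀ hn0, Real.rpow_one,
    Real.rpow_natCast] at h3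
  exact h3

/-- lower bound -/
theorem rad_le [CompleteSpace B] [NormOneClass B] (a : B) {c : ℝ} (hc : 0 ≤ c) {n : ℕ}
    (hn : n ≠ 0) (h : ‖a ^ n‖ ≤ c ^ n) : spectralRadius ℂ a ≤ ENNReal.ofReal c := by
  refine iSup₂_le fun k hk => ?_
  have h1 : k ^ n ∈ spectrum ℂ (a ^ n) := by
    have := spectrum.subset_polynomial_aeval a (Polynomial.X ^ n : Polynomial ℂ) ⟨k, hk, rfl⟩
    simpa using this
  have h2 : ‖k‖ ^ n ≤ c ^ n := by
    rw [← norm_pow]
    exact (spectrum.norm_le_norm_of_mem h1).trans h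
  have h3 : ‖k‖ ≤ c := le_of_pow_le_pow_left₀ hn hc h2
  rw [← ENNReal.ofReal_coe_nnreal, coe_nnnorm]
  exact ENNReal.ofReal_le_ofReal h3

end banach

section claim
variable {A : Type} [NormedAddCommGroup A] [NormedSpace ℂ A] {B : Type} [NormedRing B]
  [NormedAlgebra ℂ B] [CompleteSpace B] [NormOneClass B]

/-- powers with exponents which are powers of two -/
theorem pow_two_mono (w : B) {c : ℝ} {i j : ℕ} (hij : i ≤ j)
    (h : ‖w ^ (2 ^ i)‖ < c ^ (2 ^ i)) : ‖w ^ (2 ^ j)‖ < c ^ (2 ^ j) := by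
  obtain ⟨d, rfl⟩ := Nat.exists_eq_add_of_le hij
  have e : 2 ^ (i + d) = 2 ^ i * 2 ^ d := pow_add _ _ _
  rw [e, pow_mul, pow_mul]
  refine lt_of_le_of_lt (norm_pow_le _ _) ?_
  exact pow_lt_pow_left₀ h (norm_nonneg _) (by positivity)

theorem claim (φ : A →ₗ[ℂ] B) {M : ℝ} (hM : 0 ≤ M) (hs : Function.Surjective φ)
    (hφ : ∀ a, ∀ z ∈ spectrum ℂ (φ a), ‖z‖ ≤ M * ‖a‖) {x : ℕ → A} {y : B}
    (hx : Tendsto x atTop (𝓝 0)) (hy : Tendsto (fun k => φ (x k)) atTop (𝓝 y)) {v : B}
    (hv : spectralRadius ℂ v = 0) : spectralRadius ℂ (v + y) = 0 := by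
  obtain ⟨u, rfl⟩ := hs v
  obtain ⟨x0, hx0⟩ := hs y
  set M' : ℝ := M * ‖u + x0‖ + 1 with hM'
  have hM'1 : 1 ≤ M' := by
    have : 0 ≤ M * ‖u + x0‖ := mul_nonneg hM (norm_nonneg _)
    linarith
  have hM'0 : 0 < M' := by linarith
  -- it suffices to bound by every positive number
  suffices hsuff : ∀ δ : ℝ, 0 < δ → spectralRadius ℂ (φ u + y) ≤ ENNReal.ofReal δ by
    refine le_antisymm ?_ bot_le
    have h1 : Tendsto (fun δ : ℝ => ENNReal.ofReal δ) (𝓝[>] (0 : ℝ)) (𝓝 0) := by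
      have h2 : Tendsto (fun δ : ℝ => ENNReal.ofReal δ) (𝓝 (0 : ℝ)) (𝓝 (ENNReal.ofReal 0)) :=
        (ENNReal.continuous_ofReal).tendsto 0
      rw [ENNReal.ofReal_zero] at h2
      exact h2.mono_left nhdsWithin_le_nhds
    refine ge_of_tendsto h1 ?_
    filter_upwards [self_mem_nhdsWithin] with δ hδ
    exact hsuff δ hδ
  intro δ hδ
  set ε : ℝ := δ ^ 2 / M' with hε
  have hε0 : 0 < ε := by positivity
  -- a power of `v = φ u` is small
  have e1 := ev_lt (φ u) (c := ε) (by rw [hv]; exact ENNReal.ofReal_pos.2 hε0)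
  have e2 : ∀ᶠ j : ℕ in atTop, ‖(φ u) ^ (2 ^ j)‖ < ε ^ (2 ^ j) :=
    (tendsto_pow_atTop_atTop_of_one_lt (by norm_num : 1 < 2)).eventually e1
  obtain ⟨j0, hj0⟩ := e2.exists
  -- continuity of the power
  have e3 : ∀ᶠ w in 𝓝 (φ u), ‖w ^ (2 ^ j0)‖ < ε ^ (2 ^ j0) := by
    have hc : Continuous (fun w : B => ‖w ^ (2 ^ j0)‖) := by fun_prop
    exact (hc.tendsto (φ u)).eventually (gt_mem_nhds hj0)
  obtain ⟨δ', hδ', hball⟩ := Metric.eventually_nhds_iff.1 e3
  -- the radius
  set R : ℝ := 2 * (‖y‖ + 1) / δ' + 2 with hR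
  have hy0 : 0 ≤ ‖y‖ := norm_nonneg y
  have hR2 : 2 ≤ R := by
    have : 0 ≤ 2 * (‖y‖ + 1) / δ' := by positivity
    linarith
  have hR0 : 0 < R := by linarith
  have hRδ : (‖y‖ + 1) / R < δ' / 2 := by
    rw [div_lt_iff₀ hR0]
    have : δ' / 2 * R = (‖y‖ + 1) + δ' := by
      rw [hR]; field_simp
    rw [this]; linarith
  -- the index
  have f1 : ∀ᶠ k in atTop, ‖y - φ (x k)‖ < δ' / 2 := by
    have h1 : Tendsto (fun k => ‖y - φ (x k)‖) atTop (𝓝 ‖y - y‖) :=
      (tendsto_const_nhds.sub hy).norm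
    rw [sub_self, norm_zero] at h1
    exact h1.eventually (gt_mem_nhds (by positivity))
  have f2 : ∀ᶠ k in atTop, ‖φ (x k)‖ < ‖y‖ + 1 :=
    hy.norm.eventually (gt_mem_nhds (by linarith))
  have f3 : ∀ᶠ k in atTop, M * ((R + 1) * ‖x k‖) < 1 / 2 := by
    have h1 : Tendsto (fun k => M * ((R + 1) * ‖x k‖)) atTop (𝓝 (M * ((R + 1) * ‖(0 : A)‖))) :=
      (hx.norm.const_mul _).const_mul _
    rw [norm_zero, mul_zero, mul_zero] at h1
    exact h1.eventually (gt_mem_nhds (by norm_num))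
  obtain ⟨k, hk1, hk2, hk3⟩ := (f1.and (f2.and f3)).exists
  set P : B := φ u + y - φ (x k) with hP
  set Q : B := φ (x k) with hQ
  -- the small circle
  have s1 : ∀ z : ℂ, ‖z‖ = R⁻¹ → ‖(P + z • Q) ^ (2 ^ j0)‖ < ε ^ (2 ^ j0) := by
    intro z hz
    apply hball
    rw [dist_eq_norm]
    have e4 : P + z • Q - φ u = (y - φ (x k)) + z • φ (x k) := by
      rw [hP, hQ]; abel
    rw [e4]
    calc ‖(y - φ (x k)) + z • φ (x k)‖ ≤ ‖y - φ (x k)‖ + ‖z • φ (x k)‖ := norm_add_le _ _
      _ ≤ ‖y - φ (x k)‖ + R⁻¹ * (‖y‖ + 1) := by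
          rw [norm_smul, hz]
          gcongr
      _ < δ' / 2 + δ' / 2 := by
          have : R⁻¹ * (‖y‖ + 1) = (‖y‖ + 1) / R := by rw [div_eq_inv_mul]
          rw [this]
          linarith
      _ = δ' := by ring
  -- the large circle
  have s2 : ∀ z : ℂ, ‖z‖ = R → ∃ j : ℕ, ‖(P + z • Q) ^ (2 ^ j)‖ < M' ^ (2 ^ j) := by
    intro z hz
    have e5 : P + z • Q = φ (u + x0 - x k + z • x k) := by
      rw [map_add, map_sub, map_add, map_smul, hx0]
    have e6 : spectralRadius ℂ (P + z • Q) < ENNReal.ofReal M' := by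
      refine lt_of_le_of_lt (iSup₂_le (a := ENNReal.ofReal (M' - 1 / 2)) fun w hw => ?_) ?_
      · rw [← ENNReal.ofReal_coe_nnreal, coe_nnnorm]
        apply ENNReal.ofReal_le_ofReal
        rw [e5] at hw
        refine (hφ _ w hw).trans ?_
        have e7 : ‖u + x0 - x k + z • x k‖ ≤ ‖u + x0‖ + (R + 1) * ‖x k‖ := by
          calc ‖u + x0 - x k + z • x k‖ ≤ ‖u + x0 - x k‖ + ‖z • x k‖ := norm_add_le _ _
            _ ≤ (‖u + x0‖ + ‖x k‖) + R * ‖x k‖ := by
                rw [norm_smul, hz]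
                gcongr
                exact norm_sub_le _ _
            _ = ‖u + x0‖ + (R + 1) * ‖x k‖ := by ring
        have e8 : M * ‖u + x0 - x k + z • x k‖ ≤ M * (‖u + x0‖ + (R + 1) * ‖x k‖) :=
          mul_le_mul_of_nonneg_left e7 hM
        rw [mul_add] at e8
        linarith
      · exact (ENNReal.ofReal_lt_ofReal_iff hM'0).2 (by linarith)
    have e9 : ∀ᶠ j : ℕ in atTop, ‖(P + z • Q) ^ (2 ^ j)‖ < M' ^ (2 ^ j) :=
      (tendsto_pow_atTop_atTop_of_one_lt (by norm_num : 1 < 2)).eventually (ev_lt _ e6)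
    exact e9.exists
  have s3 : ∃ j : ℕ, Metric.sphere (0 : ℂ) R ⊆
      {z : ℂ | ‖(P + z • Q) ^ (2 ^ j)‖ < M' ^ (2 ^ j)} := by
    refine (isCompact_sphere (0 : ℂ) R).elim_directed_cover
      (fun j : ℕ => {z : ℂ | ‖(P + z • Q) ^ (2 ^ j)‖ < M' ^ (2 ^ j)}) ?_ ?_ ?_
    · intro j
      have hc : Continuous (fun z : ℂ => ‖(P + z • Q) ^ (2 ^ j)‖) := by fun_prop
      exact isOpen_lt hc continuous_const
    · intro z hz
      rw [mem_sphere_zero_iff_norm] at hz
      obtain ⟨j, hj⟩ := s2 z hz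
      exact Set.mem_iUnion.2 ⟨j, hj⟩
    · intro i j
      exact ⟨max i j, fun z hz => pow_two_mono _ (le_max_left _ _) hz,
        fun z hz => pow_two_mono _ (le_max_right _ _) hz⟩
  obtain ⟨j1, hj1⟩ := s3
  set j := max j0 j1 with hj
  set n := 2 ^ j with hn
  have c1 : ∀ z : ℂ, ‖z‖ = R⁻¹ → ‖(P + z • Q) ^ n‖ ≤ ε ^ n := fun z hz =>
    (pow_two_mono _ (le_max_left j0 j1) (s1 z hz)).le
  have c2 : ∀ z : ℂ, ‖z‖ = R → ‖(P + z • Q) ^ n‖ ≤ M' ^ n := fun z hz =>
    (pow_two_mono _ (le_max_right j0 j1) (hj1 (mem_sphere_zero_iff_norm.2 hz))).le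
  have c3 := three_circles P Q n (by linarith) c1 c2
  have c4 : P + Q = φ u + y := by rw [hP, hQ, sub_add_cancel]
  rw [c4] at c3
  refine rad_le (φ u + y) hδ.le (n := n) (by positivity) (c3.trans (le_of_eq ?_))
  rw [← Real.mul_rpow (by positivity) (by positivity), ← mul_pow]
  have c5 : ε * M' = δ ^ 2 := by
    rw [hε]; field_simp
  rw [c5, ← pow_mul, mul_comm 2 n, pow_mul, ← Real.sqrt_eq_rpow, Real.sqrt_sq (by positivity)]

end claim

end Cont

theorem prove_cont : P_cont := by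
  intro A _ _ _ B _ φ M hs hφ
  rcases subsingleton_or_nontrivial B with hB | hB
  · refine ⟨0, fun a => ?_⟩
    rw [Subsingleton.elim (φ a) 0, norm_zero, zero_mul]
  -- we may assume that `M` is nonnegative
  have hφ' : ∀ a, ∀ z ∈ spectrum ℂ (φ a), ‖z‖ ≤ max M 0 * ‖a‖ := fun a z hz =>
    (hφ a z hz).trans (mul_le_mul_of_nonneg_right (le_max_left _ _) (norm_nonneg _))
  have hM : 0 ≤ max M 0 := le_max_right _ _
  -- the separating space is zero
  have hstar : ∀ w : B, spectralRadius ℂ w = 0 → spectralRadius ℂ (star w) = 0 := by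
    intro w hw
    refine le_antisymm (iSup₂_le fun k hk => ?_) bot_le
    have h1 : star k ∈ spectrum ℂ w := by
      rw [spectrum.map_star] at hk
      exact hk
    have h2 : (‖star k‖₊ : ENNReal) ≤ spectralRadius ℂ w :=
      le_iSup₂ (α := ENNReal) (f := fun k (_ : k ∈ spectrum ℂ w) => (‖k‖₊ : ENNReal)) (star k) h1
    rw [hw] at h2
    rwa [nnnorm_star] at h2
  have hsep : ∀ (x : ℕ → A) (y : B), Tendsto x atTop (𝓝 0) →
      Tendsto (fun k => φ (x k)) atTop (𝓝 y) → y = 0 := by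
    have hsum : ∀ (x : ℕ → A) (y : B), Tendsto x atTop (𝓝 0) →
        Tendsto (fun k => φ (x k)) atTop (𝓝 y) → star y + y = 0 := by
      intro x y hx hy
      have h1 : spectralRadius ℂ y = 0 := by
        have := Cont.claim φ hM hs hφ' hx hy (v := 0) (by
          rw [spectralRadius]; simp)
        rwa [zero_add] at this
      have h2 := Cont.claim φ hM hs hφ' hx hy (hstar y h1)
      have h3 : IsSelfAdjoint (star y + y) := by
        rw [isSelfAdjoint_iff, star_add, star_star, add_comm]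
      rw [h3.spectralRadius_eq_nnnorm] at h2
      have h4 : ‖star y + y‖₊ = 0 := by exact_mod_cast h2
      exact nnnorm_eq_zero.1 h4
    intro x y hx hy
    have h1 := hsum x y hx hy
    have h2 := hsum (fun k => Complex.I • x k) (Complex.I • y) (by
      have := hx.const_smul Complex.I
      rwa [smul_zero] at this) (by
      simp only [map_smul]
      exact hy.const_smul Complex.I)
    rw [star_smul, Complex.star_def, Complex.conj_I, neg_smul, neg_add_eq_zero] at h2
    have h3 : star y = y := by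
      have := congrArg (fun w => Complex.I • w) h2
      simp only [smul_smul, Complex.I_mul_I, neg_smul, one_smul, neg_inj] at this
      exact this
    rw [h3, ← two_smul ℂ] at h1
    exact (smul_eq_zero.1 h1).resolve_left two_ne_zero
  have hcont : Continuous φ := by
    refine φ.continuous_of_seq_closed_graph fun u x y hu hy => ?_
    have h1 := hsep (fun k => u k - x) (y - φ x) (by
      have := hu.sub_const x
      rwa [sub_self] at this) (by
      simp only [map_sub]
      exact hy.sub_const (φ x))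
    exact sub_eq_zero.1 h1
  let Φ : A →L[ℂ] B := ⟨φ, hcont⟩
  exact ⟨‖Φ‖, fun a => Φ.le_opNorm a⟩

end H770R2.Spec
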